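import Mathlib

namespace Pool.Agent.Results.MP_9bce75_nt.N492

/-- `a n`: the number of distinct sums of non-empty sets of proper divisors of `n`. -/
def a (n : ℕ) : ℕ :=
  ((n.properDivisors.powerset.erase ∅).image (fun S => ∑ d ∈ S, d)).card

/-- Bit mask of the subset sums of a list. -/
def mask : List ℕ → ℕ
  | [] => 1
  | d :: l => mask l ||| (mask l <<< d)

lemma mask_spec (l : List ℕ) (hl : l.Nodup) :
    ∀ x, (mask l).testBit x = true ↔ ∃ S ⊆ l.toFinset, ∑ d ∈ S, d = x := by
  induction l with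
  | nil =>
    intro x
    simp only [mask, List.toFinset_nil, Finset.subset_empty, exists_eq_left, Finset.sum_empty]
    rw [Nat.testBit_one_eq_true_iff_self_eq_zero]; exact eq_comm
  | cons d l ih =>
    intro x
    rw [List.nodup_cons] at hl
    simp only [mask, Nat.testBit_or, Nat.testBit_shiftLeft, Bool.or_eq_true, Bool.and_eq_true,
      decide_eq_true_eq, ih hl.2, List.toFinset_cons]
    have hd : d ∉ l.toFinset := by simpa using hl.1
    constructor
    · rintro (⟨S, hS, rfl⟩ | ⟨h1, S, hS, h2⟩)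
      · exact ⟨S, hS.trans (Finset.subset_insert _ _), rfl⟩
      · refine ⟨insert d S, Finset.insert_subset_insert _ hS, ?_⟩
        rw [Finset.sum_insert (fun h => hd (hS h)), h2]; omega
    · rintro ⟨S, hS, rfl⟩
      by_cases h : d ∈ S
      · right
        rw [← Finset.add_sum_erase S _ h]
        exact ⟨by omega, S.erase d, Finset.subset_insert_iff.1 hS, by omega⟩
      · left
        exact ⟨S, (Finset.subset_insert_iff_of_notMem h).1 hS, rfl⟩

lemma ex : a 492 = 492 := by
  have hD : (492 : ℕ).properDivisors = [1, 2, 3, 4, 6, 12, 41, 82, 123, 164, 246].toFinset := by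
    decide +kernel
  have hs : ∑ d ∈ (492 : ℕ).properDivisors, d = 684 := by decide +kernel
  have : ((492 : ℕ).properDivisors.powerset.erase ∅).image (fun S => ∑ d ∈ S, d) =
      (Finset.Icc 1 684).filter
        (fun x => (mask [1, 2, 3, 4, 6, 12, 41, 82, 123, 164, 246]).testBit x = true) := by
    ext x
    rw [Finset.mem_filter, mask_spec _ (by decide), ← hD]
    simp only [Finset.mem_image, Finset.mem_erase, Finset.mem_powerset, Finset.mem_Icc]
    constructor
    · rintro ⟨S, ⟨h1, h2⟩, rfl⟩
      refine ⟨⟨?_, hs ▸ Finset.sum_le_sum_of_subset h2⟩, S, h2, rfl⟩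
      exact Finset.sum_pos (fun d hd => Nat.pos_of_mem_properDivisors (h2 hd))
        (Finset.nonempty_iff_ne_empty.2 h1)
    · rintro ⟨⟨h1, _⟩, S, h2, rfl⟩
      refine ⟨S, ⟨?_, h2⟩, rfl⟩
      rintro rfl
      simp at h1
  rw [a, this]
  decide +kernel

lemma not_perfect : ¬ Nat.Perfect 492 := by
  rw [Nat.perfect_iff_sum_properDivisors (by norm_num)]
  decide +kernel

theorem result :
    (a 492 = 492 ∧ ¬ Nat.Perfect 492) ∧ ¬ ∀ n : ℕ, 0 < n → a n = n → Even n ∧ Nat.Perfect n :=
  ⟨⟨ex, not_perfect⟩, fun h => not_perfect (h 492 (by norm_num) ex).2⟩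

end Pool.Agent.Results.MP_9bce75_nt.N492
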